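import Pool.Agent.H61.CM4.TargetsB
import Pool.Agent.H66.HK.FD
import Pool.Agent.H87.HK.YC

/-!
# Decay of the theta function (MP_52e316_nt, board cm4, row DC2)
-/

set_option autoImplicit false

open MeasureTheory Set Filter NumberField NumberField.InfinitePlace NumberField.Units
  NumberField.Units.dirichletUnitTheorem Pool.Agent.H65.CM4 Pool.Agent.H25.HK
  Pool.Agent.H61.CM4
open scoped Real

namespace Pool.Agent.H31.CM4B

section

variable {k : Type} [Field k] [NumberField k] [IsTotallyReal k]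

lemma qr_nonneg {x y : ℝ} (hy : 0 < y) (a b : ℝ) : 0 ≤ qr x y a b := by
  unfold qr
  positivity

lemma qr_pos {x y : ℝ} (hy : 0 < y) {a b : ℝ} (h : ¬ (a = 0 ∧ b = 0)) : 0 < qr x y a b := by
  unfold qr
  refine div_pos ?_ (by positivity)
  by_contra hcon
  have h1 : (a + b * x) ^ 2 = 0 := by
    nlinarith [sq_nonneg (a + b * x), sq_nonneg (b * y)]
  have h2 : (b * y) ^ 2 = 0 := by
    nlinarith [sq_nonneg (a + b * x), sq_nonneg (b * y)]
  have h3 : b = 0 := by
    rcases mul_eq_zero.1 (pow_eq_zero_iff (two_ne_zero)|>.1 h2) with h | h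
    · exact h
    · exact absurd h hy.ne'
  have h4 : a = 0 := by
    have h5 := pow_eq_zero_iff (two_ne_zero)|>.1 h1
    rw [h3, zero_mul, add_zero] at h5
    exact h5
  exact h ⟨h4, h3⟩

lemma qs_nonneg {x y : Pl k → ℝ} (hy : ∀ v, 0 < y v) (c : Pl k → ℝ) (u : V2 k) :
    0 ≤ qs x y c u := by
  unfold qs
  exact Finset.sum_nonneg fun v _ => mul_nonneg (Real.exp_pos _).le (qr_nonneg (hy v) _ _)

lemma qs_pos {x y : Pl k → ℝ} (hy : ∀ v, 0 < y v) (c : Pl k → ℝ) {u : V2 k} (hu : u ≠ 0) :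
    0 < qs x y c u := by
  unfold qs
  refine Finset.sum_pos (fun v _ => mul_pos (Real.exp_pos _) (qr_pos (hy v) ?_))
    Finset.univ_nonempty
  rintro ⟨h1, h2⟩
  apply hu
  have h3 : ((u.1 : 𝓞 k) : k) = 0 := (map_eq_zero (rv v)).1 h1
  have h4 : ((u.2 : 𝓞 k) : k) = 0 := (map_eq_zero (rv v)).1 h2
  ext
  · exact h3
  · exact h4

lemma qs_zero (x y c : Pl k → ℝ) : qs x y c (0 : V2 k) = 0 := by
  unfold qs qr
  simp

lemma qs_const (x y : Pl k → ℝ) (c : ℝ) (u : V2 k) :
    qs x y (fun _ => c) u = Real.exp c * qs x y (fun _ => 0) u := by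
  unfold qs
  rw [Finset.mul_sum]
  refine Finset.sum_congr rfl fun v _ => ?_
  rw [Real.exp_zero]
  ring

lemma qs_mono {x y : Pl k → ℝ} (hy : ∀ v, 0 < y v) {c c' : Pl k → ℝ} (h : ∀ v, c v ≤ c' v)
    (u : V2 k) : qs x y c u ≤ qs x y c' u := by
  unfold qs
  exact Finset.sum_le_sum fun v _ =>
    mul_le_mul_of_nonneg_right (Real.exp_le_exp.2 (h v)) (qr_nonneg (hy v) _ _)

open scoped Classical in
lemma qs_delta {x y : Pl k → ℝ} (hy : ∀ v, 0 < y v)
    (hs : Summable (fun u : V2 k => if u ∈ (⊤ : La k) then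
      Real.exp (-(2 * π) * qs x y (fun _ => 0) u) else 0)) :
    ∃ δ : ℝ, 0 < δ ∧ ∀ u : V2 k, u ≠ 0 → δ ≤ qs x y (fun _ => 0) u := by
  have hfin : {u : V2 k | qs x y (fun _ => 0) u < 1}.Finite := by
    have h1 := hs.tendsto_cofinite_zero
    have h2 := h1.eventually (gt_mem_nhds (Real.exp_pos (-(2 * π))))
    rw [Filter.eventually_cofinite] at h2
    refine h2.subset ?_
    intro u hu h3
    rw [if_pos Submodule.mem_top, Real.exp_lt_exp] at h3
    have h4 : qs x y (fun _ => 0) u < 1 := hu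
    have := Real.pi_pos
    nlinarith
  let F : Finset (V2 k) := hfin.toFinset.filter (fun u : V2 k => u ≠ 0)
  by_cases hF : F.Nonempty
  · obtain ⟨u0, hu0, hmin⟩ := Finset.exists_min_image F (fun u => qs x y (fun _ => 0) u) hF
    have hu0' : u0 ≠ 0 := (Finset.mem_filter.1 hu0).2
    refine ⟨min 1 (qs x y (fun _ => 0) u0), lt_min one_pos (qs_pos hy _ hu0'), ?_⟩
    intro u hu
    by_cases h : qs x y (fun _ => 0) u < 1
    · refine (min_le_right _ _).trans (hmin u ?_)
      rw [Finset.mem_filter]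
      exact ⟨hfin.mem_toFinset.2 h, hu⟩
    · exact (min_le_left _ _).trans (not_lt.1 h)
  · refine ⟨1, one_pos, ?_⟩
    intro u hu
    by_contra h
    exact hF ⟨u, Finset.mem_filter.2 ⟨hfin.mem_toFinset.2 (not_le.1 h), hu⟩⟩

end

theorem pf_DC2 (hIXD : T_IXD) (hTHT : T_THT) : T_DC2 := by
  classical
  intro k _ _ _ M x y hy
  obtain ⟨B, hB⟩ := (Pool.Agent.H66.HK.fd k).2.1
  obtain ⟨C0, hC0⟩ := (Pool.Agent.H87.HK.yc_main k).2.2.2.2.2 B
  have hyc := (Pool.Agent.H87.HK.yc_main k).2.2.2.1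
  have htop : ix (⊤ : La k) ≠ 0 := by
    unfold ix
    simp
  have hS : ∀ c : Pl k → ℝ, Summable (fun u : V2 k => if u ∈ (⊤ : La k) then
      Real.exp (-(2 * π) * qs x y c u) else 0) := fun c => (hTHT k ⊤ x y c htop hy).1
  obtain ⟨δ, hδ, hδ2⟩ := qs_delta hy (hS fun _ => 0)
  have hsum := hS (fun _ => -C0 - Real.log 2)
  have hq : ∀ u : V2 k, qs x y (fun _ => -C0 - Real.log 2) u =
      Real.exp (-C0) / 2 * qs x y (fun _ => 0) u := by
    intro u
    rw [qs_const, Real.exp_sub, Real.exp_log two_pos]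
  refine ⟨∑' u : V2 k, if u ∈ (⊤ : La k) then
    Real.exp (-(2 * π) * qs x y (fun _ => -C0 - Real.log 2) u) else 0,
    π * Real.exp (-C0) * δ, by positivity, ?_⟩
  intro t ht z hz
  have htpos : 0 < t := by linarith
  set s : ℝ := t ^ ((2 : ℝ) / dg k) with hs
  have hs1 : 1 ≤ s := Real.one_le_rpow ht (by positivity)
  have hsexp : s = Real.exp (2 * Real.log t / Module.finrank ℚ k) := by
    rw [hs, Real.rpow_def_of_pos htpos]
    congr 1
    unfold dg
    ring
  have hlow : ∀ u : V2 k, Real.exp (-C0) * s * qs x y (fun _ => 0) u ≤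
      qs x y (yc k (Real.log t) z) u := by
    intro u
    have h4 : ∀ v, (2 * Real.log t / Module.finrank ℚ k - C0) ≤ yc k (Real.log t) z v := by
      intro v
      rw [hyc]
      have := neg_abs_le (yc k 0 z v)
      have h5 := hC0 z (hB z hz) v
      linarith
    have h5 := qs_mono (x := x) (c := fun _ => 2 * Real.log t / Module.finrank ℚ k - C0) hy h4 u
    rw [qs_const, sub_eq_add_neg, Real.exp_add, ← hsexp] at h5
    linarith [h5, mul_comm s (Real.exp (-C0))]
  have hmain : Summable (fun u : V2 k => if u ∈ M then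
      Real.exp (-(2 * π) * qs x y (yc k (Real.log t) z) u) else 0) := by
    refine Summable.of_nonneg_of_le (fun u => ?_) (fun u => ?_) (hS (yc k (Real.log t) z))
    · split_ifs
      · exact (Real.exp_pos _).le
      · exact le_rfl
    · rw [if_pos Submodule.mem_top]
      split_ifs
      · exact le_rfl
      · exact (Real.exp_pos _).le
  have hth : th2 M x y (yc k (Real.log t) z) - 1 =
      ∑' u : V2 k, ite (u = 0) 0 (if u ∈ M then
        Real.exp (-(2 * π) * qs x y (yc k (Real.log t) z) u) else 0) := by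
    unfold th2
    rw [hmain.tsum_eq_add_tsum_ite 0]
    rw [if_pos M.zero_mem, qs_zero, mul_zero, Real.exp_zero]
    ring
  rw [hth, ← Real.norm_eq_abs]
  refine tsum_of_norm_bounded (hsum.hasSum.mul_right _) ?_
  intro u
  have hπ := Real.pi_pos
  have ha := Real.exp_pos (-C0)
  rw [if_pos (Submodule.mem_top : u ∈ (⊤ : La k))]
  split_ifs with hu hu2
  · rw [norm_zero]
    positivity
  · rw [Real.norm_eq_abs, abs_of_pos (Real.exp_pos _), ← Real.exp_add, hq]
    apply Real.exp_le_exp.2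
    have h5 := hlow u
    have h6 := hδ2 u hu
    have h7 : 0 ≤ qs x y (fun _ => 0) u := qs_nonneg hy _ _
    set q := qs x y (fun _ => 0) u with hqdef
    set a := Real.exp (-C0) with hadef
    have h8 : a / 2 * q + a / 2 * δ * s ≤ a * s * q := by
      have h9 : a / 2 * q ≤ a / 2 * s * q := by
        have : 0 ≤ a / 2 * q := by positivity
        nlinarith
      have h10 : a / 2 * δ * s ≤ a / 2 * s * q := by
        have : 0 ≤ a / 2 * s := by positivity
        nlinarith
      linarith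
    nlinarith
  · rw [norm_zero]
    positivity

end Pool.Agent.H31.CM4B
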